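import Pool.Agent.U882.GC.Bdry

/-!
# Green functions with colliding poles: `L¹_loc` convergence is locally uniform off the origin

`PSH` (plurisubharmonic functions, values in `[-∞, ∞)`) and `Hyperconvex` are defined in
`Pool/Agent/Helper311/GB/Defs.lean`; `Comp Ω S u` (competitors) and `greenS Ω S z`
(the pluricomplex Green function `G_S(z)` of `Ω` with poles at the points of `S`) in
`Pool/Agent/U882/GC/Equi.lean`. The functions take values in `EReal`; `toReal` is the real number
when the value is finite (and `0` at the poles, where the value is `-∞`).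

Idea of the proof: let `z₀ ≠ 0`, let `P` be the polynomial of degree `N` with `P = 0` at the poles
and `P(z₀) = 1` (product of linear forms in the direction of `z₀`); its coefficients are bounded when
the poles are close to `0`. The map `Φ(z) = z + h P(z)` fixes the poles, maps `z₀` to `z₀ + h` and is
`O(|h|)`-close to the identity. If `u` is a competitor, then `u ∘ Φ - δ`, glued near the boundary
with a multiple of the exhaustion function, is a competitor, so `G_S(z₀ + h) ≤ G_S(z₀) + δ` for
`|h| < η(δ)`, uniformly in `S`.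
-/

set_option autoImplicit false

open MeasureTheory Filter Topology Set

namespace Pool.Agent.Results.MP_eb85ab_an.LocallyUniform

open Pool.Agent.Helper311.GB Pool.Agent.U882.GC

/-- **Negative answer to the question** (the negated form holds). Let `Ω ⊂ ℂⁿ` be a bounded
hyperconvex open set with `0 ∈ Ω` and `a i 1, …, a i N` families of points tending to `0` along a
filter (for instance `ε → 0⁺`). If `G_{S_i} → g` in `L¹_loc(Ω)` then there is a continuous function
`G` on `Ω \ {0}` with `g = G` almost everywhere (and everywhere if `g` is plurisubharmonic), and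
`G_{S_i} → G` uniformly on `Ω \ B(0, r)` for every `r > 0`.

Second part: the family of all `G_S`, `S` a set of at most `N` points near `0`, is uniformly bounded
and uniformly equicontinuous on every compact subset of `Ω \ {0}`. -/
theorem result :
    (∀ (n N : ℕ) (Ω : Set (EuclideanSpace ℂ (Fin n))), IsOpen Ω → Bornology.IsBounded Ω →
      Hyperconvex Ω → (0 : EuclideanSpace ℂ (Fin n)) ∈ Ω →
      ∀ (ι : Type) (l : Filter ι) [l.NeBot] (a : ι → Fin N → EuclideanSpace ℂ (Fin n)),
        (∀ j, Tendsto (fun i => a i j) l (𝓝 0)) →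
        ∀ g : EuclideanSpace ℂ (Fin n) → ℝ, LocallyIntegrableOn g Ω →
        (∀ K ⊆ Ω, IsCompact K → Tendsto
          (fun i => ∫⁻ z in K, ‖(greenS Ω (Set.range (a i)) z).toReal - g z‖ₑ) l (𝓝 0)) →
        ∃ G : EuclideanSpace ℂ (Fin n) → ℝ, ContinuousOn G (Ω \ {0}) ∧
          (∀ᵐ z ∂(volume.restrict (Ω \ {0})), g z = G z) ∧
          (∀ u : EuclideanSpace ℂ (Fin n) → EReal, PSH (Ω \ {0}) u →
            (∀ᵐ z ∂(volume.restrict (Ω \ {0})), u z = ((g z : ℝ) : EReal)) →
              ∀ z ∈ Ω \ {0}, u z = ((G z : ℝ) : EReal)) ∧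
          ∀ r : ℝ, 0 < r →
            (∀ᶠ i in l, ∀ z ∈ Ω \ Metric.ball 0 r, greenS Ω (Set.range (a i)) z =
              (((greenS Ω (Set.range (a i)) z).toReal : ℝ) : EReal)) ∧
            TendstoUniformlyOn (fun i z => (greenS Ω (Set.range (a i)) z).toReal) G l
              (Ω \ Metric.ball 0 r)) ∧
    (∀ (n N : ℕ) (Ω : Set (EuclideanSpace ℂ (Fin n))), IsOpen Ω → Bornology.IsBounded Ω →
      Hyperconvex Ω → (0 : EuclideanSpace ℂ (Fin n)) ∈ Ω →
      ∀ K : Set (EuclideanSpace ℂ (Fin n)), IsCompact K → K ⊆ Ω \ {0} →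
        ∃ ρ0 : ℝ, 0 < ρ0 ∧
          (∃ A : ℝ, ∀ a : Fin N → EuclideanSpace ℂ (Fin n), (∀ j, ‖a j‖ < ρ0) → ∀ z ∈ K,
            ((-A : ℝ) : EReal) ≤ greenS Ω (Set.range a) z ∧ greenS Ω (Set.range a) z ≤ 0) ∧
          ∀ δ : ℝ, 0 < δ → ∃ η : ℝ, 0 < η ∧
            ∀ a : Fin N → EuclideanSpace ℂ (Fin n), (∀ j, ‖a j‖ < ρ0) → ∀ z ∈ K, ∀ w ∈ K,
              dist z w < η →
                |(greenS Ω (Set.range a) z).toReal - (greenS Ω (Set.range a) w).toReal| ≤ δ) :=
  ⟨fun _ _ _ hΩ hb hh h0 _ l _ a ha g hg hconv => main_full hΩ hb hh h0 l a ha g hg hconv,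
    fun _ _ _ hΩ hb hh h0 K hK hKΩ => equi_real hΩ hb hh h0 K hK hKΩ⟩

end Pool.Agent.Results.MP_eb85ab_an.LocallyUniform
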